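import Pool.Agent.Helper23.PL.SpecE
import Pool.Agent.Helper95.UP.Assemble

/-!
# PL: the facts given by the drawings, assembled
-/

set_option autoImplicit false

open Set
open Pool.Agent.Helper83.OP Pool.Agent.Helper93.HH Pool.Agent.Helper95.HH Pool.Agent.Helper95.UP

namespace Pool.Agent.Helper23.PL.Fin

/-- monotonicity of the bounds -/
theorem bd_mono {c c' x x' : ℕ} (h : c ≤ c') (hx : x ≤ x') (h1 : 1 ≤ x') : c * x ^ c ≤ c' * x' ^ c' :=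
  Nat.mul_le_mul h ((Nat.pow_le_pow_left hx c).trans (Nat.pow_le_pow_right h1 h))

theorem bad_of_crit : ∃ c : ℕ, ∀ (V P Q : Type) [Finite V] [Finite P] [Finite Q] (D : HD V P Q)
    (k k2 : ℕ), D.Ok → GOk D → 1 ≤ k → 1 ≤ k2 → 1 ≤ D.Kh →
    (∀ e ∈ D.G.edgeSet, KPl 1 (D.G.deleteEdges {e})) →
    ¬ KPl (c * (D.Kh * D.r * k * k2) ^ c) D.G → Bad D k k2 := by
  obtain ⟨c1, h1⟩ := draw_p1
  obtain ⟨c2, h2⟩ := draw_p2
  obtain ⟨c3, h3⟩ := draw_p3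
  obtain ⟨c4, h4⟩ := draw_q1
  obtain ⟨c5, h5⟩ := draw_cyc
  refine ⟨c1 + c2 + c3 + c4 + c5, fun V P Q _ _ _ D k k2 hD hG hk hk2 hKh hcrit hno => ?_⟩
  have hr : 1 ≤ D.Kh * D.r := Nat.mul_pos hKh (by have := hD.r_pos; omega)
  have hx : 1 ≤ D.Kh * D.r * k * k2 := Nat.mul_pos (Nat.mul_pos hr hk) hk2
  have hy : D.Kh * D.r * k ≤ D.Kh * D.r * k * k2 := Nat.le_mul_of_pos_right _ hk2
  constructor
  · intro v Z hZ
    by_contra hcon
    push Not at hcon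
    exact hno (kpl_le (h5 V P Q D k hD hG hk hcrit v Z hZ hcon) (bd_mono (by omega) hy hx))
  · intro q y z hy1 hz1 hR
    exact hno (kpl_le (h4 V P Q D k hD hG hk hcrit q y z hy1 hz1 hR) (bd_mono (by omega) hy hx))
  · intro p hB
    exact hno (kpl_le (h1 V P Q D k hD hG hk hcrit p hB) (bd_mono (by omega) hy hx))
  · intro p ρ a1 a2 a3 a4
    exact hno (kpl_le (h2 V P Q D k k2 hD hG hk hk2 hcrit p ρ a1 a2 a3 a4)
      (bd_mono (by omega) le_rfl hx))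
  · intro p b ρ a1 a2 a3 a4 a5 y z W a6 a7 a8 a9 a10 v a11 a12
    exact hno (kpl_le (h3 V P Q D k k2 hD hG hk hk2 hcrit p b ρ a1 a2 a3 a4 a5 y z W a6 a7 a8 a9 a10
      v a11 a12) (bd_mono (by omega) le_rfl hx))

end Pool.Agent.Helper23.PL.Fin
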