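import Pool.Agent.Helper93.HH.Basic

/-!
# PL: 1-planar-critical graphs on `n` vertices are `C (log n)^C`-planar (MP_0dbcb7_co). Definitions.

The data `D : HD V P Q` of `Helper93/HH` are used with `D.r = 2` and `D.L` = number of vertices (no condition on the lengths
of the threads). All distances `Nr` are in `N`, walks of `G` may pass hubs, and passing the hub `a` costs `deg a`.
Parameters: `k` (bypass), `k1` (a hub is large at scale `s` if its degree is more than `k1 s`), `k2` (number of branch
vertices in a big ball).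
-/

set_option autoImplicit false

open Set
open Pool.Agent.Helper83.OP Pool.Agent.Helper93.HH

namespace Pool.Agent.Helper23.PL

section

variable {V P Q : Type} (D : HD V P Q)

open Classical in
/-- the cost of a walk: its length and the degrees of the hubs on it (ends included) -/
noncomputable def cw {u v : V} (W : D.G.Walk u v) : ℕ :=
  W.length + (W.support.map fun z => if z ∈ D.U then deg D.G z else 0).sum

/-- there is a walk of cost at most `t` from `u` to `v` without edges of `F` -/
def Rch (F : Set (Sym2 V)) (t : ℕ) (u v : V) : Prop :=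
  ∃ W : D.G.Walk u v, (∀ f ∈ W.edges, f ∉ F) ∧ cw D W ≤ t

/-- the edges of the pin `p` -/
def Fp (p : P) : Set (Sym2 V) := {f | f ∈ (D.w p).edges}

/-- the edges of the thread `q` between two hubs -/
def Fq (q : Q) : Set (Sym2 V) := {f | f ∈ (D.wq q).edges}

/-- `y` is a neighbour of `a`, and the edge is not in `F` -/
def Nb (F : Set (Sym2 V)) (a y : V) : Prop := D.G.Adj a y ∧ s(a, y) ∉ F

/-- a walk of cost at most `t` without edges of `F` from `u` to a neighbour of `a` -/
def Byp (F : Set (Sym2 V)) (t : ℕ) (u a : V) : Prop := ∃ y, Nb D F a y ∧ Rch D F t u y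

/-- the branch vertices of `N` -/
def Vb : Set V := {v | 3 ≤ D.dg v}

/-- number of branch vertices in a set -/
noncomputable def bv (S : Set V) : ℕ := (S ∩ Vb D).ncard

/-- the pin `q` ends within distance `t` of `y`: walk of `N` from `y` to `x q`, then `q` -/
def Pn (t : ℕ) (y : V) (q : P) : Prop := ∃ s, Nr D.N s y (D.x q) ∧ s + (D.w q).length ≤ t

/-- **The facts given by the drawings** (`G` is not `K`-planar, `K` polynomial in `k, k2` and the degree bound). -/
structure Bad (k k2 : ℕ) : Prop where
  /-- every cycle of `N` has more than `k` branch vertices -/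
  cyc : ∀ v (Z : D.N.Walk v v), Z.IsCycle → k < {z | z ∈ Z.support ∧ 3 ≤ D.dg z}.ncard
  /-- no bypass of a thread between two hubs -/
  q1 : ∀ q y z, Nb D (Fq D q) (D.ha q) y → Nb D (Fq D q) (D.hb q) z →
    ¬ Rch D (Fq D q) (k * (D.wq q).length) y z
  /-- no bypass of a pin -/
  p1 : ∀ p, ¬ Byp D (Fp D p) (k * (D.w p).length) (D.x p) (D.hub p)
  /-- no bypass of a pin in a ball with one hub -/
  p2 : ∀ p ρ, 1 ≤ ρ → bv D (D.ball ρ (D.x p)) ≤ k2 → (∀ q, Pn D ρ (D.x p) q → D.hub q = D.hub p) →
    ¬ Byp D (Fp D p) (k * ρ) (D.x p) (D.hub p)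
  /-- a ball with two hubs `hub p` and `c`: no short walk `W` from `hub p` to `c` near `x p` -/
  p3 : ∀ p c ρ, 1 ≤ ρ → c ∈ D.U → c ≠ D.hub p → bv D (D.ball ρ (D.x p)) ≤ k2 →
    (∀ q, Pn D ρ (D.x p) q → D.hub q = D.hub p ∨ D.hub q = c) →
    ∀ y z (W : D.G.Walk y z), Nb D (Fp D p) (D.hub p) y → Nb D (Fp D p) c z →
      (∀ f ∈ W.edges, f ∉ Fp D p) → cw D W ≤ k * ρ →
      (∀ q t, D.hub q = c → Nr D.N t (D.x p) (D.x q) →
        cw D W ≤ k * ((D.w p).length + t + (D.w q).length)) →
      ∀ v ∈ W.support, ¬ Rch D (Fp D p) (k * ρ) (D.x p) v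

/-! ## distances to other hubs -/

/-- larger than all distances -/
noncomputable def cap : ℕ := 1000 * (Nat.card V + D.L)

/-- distance from `x p` to the nearest other hub -/
noncomputable def e1 (p : P) : ℕ :=
  sInf ({t | ∃ q, D.hub q ≠ D.hub p ∧ Pn D t (D.x p) q} ∪ {cap D})

/-- the nearest pin of another hub -/
noncomputable def pt1 (p : P) : P :=
  open Classical in
  if h : ∃ q, D.hub q ≠ D.hub p ∧ Pn D (e1 D p) (D.x p) q then h.choose else p

/-- distance from `x p` to the nearest hub different from `hub p` and `hub (pt1 p)` -/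
noncomputable def e2 (p : P) : ℕ :=
  sInf ({t | ∃ q, D.hub q ≠ D.hub p ∧ D.hub q ≠ D.hub (pt1 D p) ∧ Pn D t (D.x p) q} ∪ {cap D})

/-- the radius at which the ball has more than `k2` branch vertices -/
noncomputable def Rb (k2 : ℕ) (y : V) : ℕ := sInf ({t | k2 < bv D (D.ball t y)} ∪ {cap D})

/-- the primary scale of a pin -/
noncomputable def sg (k2 : ℕ) (p : P) : ℕ := max (D.w p).length (min (e1 D p) (Rb D k2 (D.x p)))

/-- the length of the unit of `p`: the path from `hub p` to the nearest other hub -/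
noncomputable def lam (p : P) : ℕ := (D.w p).length + e1 D p

/-- the secondary scale of a pin -/
noncomputable def rho (k2 : ℕ) (p : P) : ℕ := min (e2 D p) (Rb D k2 (D.x p))

/-- there is another walk from `hub p` to `hub (pt1 p)`, not much longer than the unit of `p` -/
def NU (k : ℕ) (p : P) : Prop :=
  ∃ (y z : V) (W : D.G.Walk y z), Nb D (Fp D p) (D.hub p) y ∧ Nb D (Fp D p) (D.hub (pt1 D p)) z ∧
    (∀ f ∈ W.edges, f ∉ Fp D p) ∧ cw D W ≤ k * lam D p

/-- pins with exactly two hubs nearby, which are joined by another short walk -/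
def T5 (k k2 : ℕ) (p : P) : Prop := 128 * sg D k2 p < rho D k2 p ∧ NU D k p

/-- the hub of `p` is large at the primary scale -/
def Lg (k1 k2 : ℕ) (p : P) : Prop := k1 * sg D k2 p < deg D.G (D.hub p)

/-- the hub of `p` is large at the secondary scale -/
def Lg2 (k1 k2 : ℕ) (p : P) : Prop := k1 * rho D k2 p < deg D.G (D.hub p)

/-- the large hubs at scale `2 ^ j` -/
def UL (k1 j : ℕ) : Set V := {a | a ∈ D.U ∧ k1 * 2 ^ j < deg D.G a}

end

end Pool.Agent.Helper23.PL
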