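import Pool.Agent.Helper72.PL.CountPL
import Pool.Agent.Helper23.PL.BadOf
import Pool.Agent.Helper23.HM.S2
import Pool.Agent.Helper23.HM.S4
import Pool.Agent.Helper43.HM.S1
import Pool.Agent.Helper43.HM.S3
import Pool.Agent.Helper95.HH.Exist
import Pool.Agent.Helper95.UP.Loop
import Pool.Agent.Helper95.UP.SegPath
import Pool.Agent.Helper71.QU.Sqrt

/-!
# PL: every m-planar-critical graph on n vertices is m C (log (m n))^C-planar
-/

set_option autoImplicit false

open Set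
open Pool.Agent.Helper83.OP Pool.Agent.Helper93.HH Pool.Agent.Helper95.HH Pool.Agent.Helper95.UP
open Pool.Agent.Helper23.HM Pool.Agent.Helper43.HM

namespace Pool.Agent.Helper23.PL.Fin

/-- a graph without edges is `k`-planar -/
theorem kpl_empty {V : Type} [Finite V] {G : SimpleGraph V} (h : ∀ u v, ¬ G.Adj u v) (k : ℕ) :
    KPl k G := by
  obtain ⟨n, ⟨e⟩⟩ := Finite.exists_equiv_fin V
  have hE : ∀ f, f ∉ G.edgeSet := by
    intro f
    induction f with
    | h a b => exact fun hf => h a b hf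
  refine ⟨fun v => ((e v : ℕ), 0), fun _ _ => (0, 0), ⟨?_, ?_, ?_, ?_, ?_⟩, ?_⟩
  · intro a b hab
    have h1 : ((e a : ℕ) : ℝ) = ((e b : ℕ) : ℝ) := congrArg Prod.fst hab
    exact e.injective (Fin.ext (by exact_mod_cast h1))
  · exact fun u v huv => absurd huv (h u v)
  · exact fun f hf => absurd hf (hE f)
  · exact fun f hf => absurd hf (hE f)
  · exact fun f hf => absurd hf (hE f)
  · exact fun f hf => absurd hf (hE f)

/-- without hubs there are no edges -/
theorem no_hubs {V P Q : Type} [Finite V] [Finite P] [Finite Q] {D : HD V P Q} {k k2 t : ℕ}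
    (hD : D.Ok) (hG : GOk D) (hB : Bad D k k2) (ht : 10 ^ t * Nat.card V < 11 ^ t)
    (hk : 8 * t + 2 ≤ k) (hU : D.U = ∅) : ∀ u v, ¬ D.G.Adj u v := by
  have hP : IsEmpty P := ⟨fun p => by have := hD.hub_U p; rw [hU] at this; exact this⟩
  have hQ : IsEmpty Q := ⟨fun q => by have := hD.ha_U q; rw [hU] at this; exact this⟩
  have h1 := nb_le hD hB t ht hk
  have h2 : Nat.card P = 0 := by
    rw [Nat.card_eq_zero]
    exact Or.inl hP
  have h3 : (Vb D) = ∅ := by
    rw [h2, Nat.mul_zero, Nat.le_zero] at h1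
    exact (Set.ncard_eq_zero (Set.toFinite _)).1 h1
  have h4 : ∀ v, ¬ 3 ≤ deg D.G v := by
    intro v hv
    have hne : (D.G.neighborSet v).Nonempty := by
      rw [← Set.ncard_pos (Set.toFinite _)]
      unfold deg at hv
      omega
    obtain ⟨w, hw⟩ := hne
    have hN : D.N.Adj v w := by
      rcases hG.cover v w hw with h | ⟨p, -⟩ | ⟨q, -⟩
      · exact h
      · exact hP.elim p
      · exact hQ.elim q
    have h5 := hG.dg_eq v (HD.VN_of_adj hN)
    have h6 : v ∈ Vb D := by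
      show 3 ≤ D.dg v
      rw [← h5]
      exact hv
    rw [h3] at h6
    exact h6
  intro u v huv
  have h7 := path_le D.G 0 hG.deg_ne hG.cyc
    (fun u v p hp huv hu hv hin => absurd hu (h4 u))
    (SimpleGraph.Walk.cons huv SimpleGraph.Walk.nil)
    (by simp [SimpleGraph.Walk.cons_isPath_iff, huv.ne]) (by
      intro c hc h1 h2
      simp only [SimpleGraph.Walk.support_cons, SimpleGraph.Walk.support_nil, List.mem_cons,
        List.not_mem_nil, or_false] at hc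
      rcases hc with hc | hc
      · exact absurd hc h1
      · exact absurd hc h2)
  simp at h7

/-- graphs all of whose subgraphs `G - e` are 1-planar, whose threads have at least two edges -/
theorem main_one : ∃ c : ℕ, ∀ (V : Type) [Finite V] (G : SimpleGraph V), ¬ KPl 1 G →
    (∀ e ∈ G.edgeSet, KPl 1 (G.deleteEdges {e})) →
    (∀ u v (p : G.Walk u v), p.IsPath → u ≠ v → 3 ≤ deg G u → 3 ≤ deg G v →
      (∀ x ∈ p.support, x ≠ u → x ≠ v → deg G x = 2) → 2 ≤ p.length) →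
    KPl (c * (Nat.log 2 (Nat.card V) + 1) ^ c) G := by
  classical
  obtain ⟨c1, hc1⟩ := bad_of_crit
  obtain ⟨c2, hc2⟩ := Pool.Agent.Helper72.PL.count_PL
  -- the constants
  obtain ⟨B, hB⟩ : ∃ B, B = 632 * (1 + c2) ^ 6 := ⟨_, rfl⟩
  obtain ⟨c, hc⟩ : ∃ c, c = 16 + c1 * B ^ c1 + 16 * c1 := ⟨_, rfl⟩
  refine ⟨c, fun V _ G h1 hcrit hlow => ?_⟩
  obtain ⟨s, hs⟩ : ∃ s, s = Nat.log 2 (Nat.card V) + 1 := ⟨_, rfl⟩
  rw [← hs]
  have hs1 : 1 ≤ s := by omega
  have hc16 : 16 ≤ c * s ^ c := by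
    calc 16 ≤ c := by omega
      _ = c * 1 := (Nat.mul_one c).symm
      _ ≤ c * s ^ c := Nat.mul_le_mul_left _ (Nat.one_le_pow _ _ hs1)
  -- closed threads
  by_cases hcyc : ∀ (x : V) (D : G.Walk x x), D.IsCycle →
      ∃ u ∈ D.support, ∃ v ∈ D.support, u ≠ v ∧ 3 ≤ deg G u ∧ 3 ≤ deg G v
  swap
  · push Not at hcyc
    obtain ⟨x, D, hD, hno⟩ := hcyc
    refine kpl_le (loop16 G hcrit D hD ?_) hc16
    rintro ⟨u, hu, v, hv, huv, h2, h3⟩
    exact absurd (hno u hu v hv huv h2) (by omega)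
  have hdeg := crit_deg G h1 hcrit
  -- there is an edge
  by_cases hed : ∀ u v, ¬ G.Adj u v
  · exact kpl_empty hed _
  push Not at hed
  obtain ⟨a0, b0, hab0⟩ := hed
  have hV2 : 2 ≤ Nat.card V := by
    have h2 : ({a0, b0} : Set V).ncard ≤ Nat.card V := by
      rw [← Set.ncard_univ]
      exact Set.ncard_le_ncard (Set.subset_univ _) (Set.toFinite _)
    rwa [Set.ncard_pair hab0.ne] at h2
  -- parameters
  obtain ⟨Kh, hKh⟩ : ∃ Kh, Kh = c2 * s ^ 3 + 1 := ⟨_, rfl⟩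
  obtain ⟨k2, hk2⟩ : ∃ k2, k2 = c2 * s ^ 3 + 1 := ⟨_, rfl⟩
  obtain ⟨k1, hk1⟩ : ∃ k1, k1 = c2 * s ^ 3 * (Kh * 2) * (k2 + 1) := ⟨_, rfl⟩
  obtain ⟨k, hk⟩ : ∃ k, k = c2 * s * (k1 + 1) + (64 * s + 2) := ⟨_, rfl⟩
  have hup : ∀ u v (p : G.Walk u v), p.IsPath →
      (∀ x ∈ p.support, x ≠ u → x ≠ v → deg G x = 2) → p.length ≤ Nat.card V := by
    intro u v p hp _
    have := Fintype.ofFinite V
    have h2 := hp.length_lt
    rw [Nat.card_eq_fintype_card]
    exact h2.le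
  obtain ⟨P, Q, hP, hQ, D, hDG, hDr, hDL, hDK, hDU, hOk, hGOk⟩ :=
    exists_hd G 2 (Nat.card V) Kh le_rfl hV2 (by omega) hdeg hlow hup hcyc
  have hsx : s ^ 3 ≤ s ^ 3 := le_rfl
  have hs3 : 1 ≤ s ^ 3 := Nat.one_le_pow _ _ hs1
  -- the bound
  have hbound : c1 * (D.Kh * D.r * k * k2) ^ c1 ≤ c * s ^ c := by
    have e1 : Kh * 2 ≤ 4 * (1 + c2) * s ^ 3 := by
      rw [hKh]
      nlinarith
    have e2 : k2 ≤ 2 * (1 + c2) * s ^ 3 := by
      rw [hk2]
      nlinarith
    have e2' : k2 + 1 ≤ 3 * (1 + c2) * s ^ 3 := by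
      rw [hk2]
      nlinarith
    have e3 : k1 ≤ 12 * (1 + c2) ^ 3 * s ^ 9 := by
      calc k1 = c2 * s ^ 3 * (Kh * 2) * (k2 + 1) := hk1
        _ ≤ ((1 + c2) * s ^ 3) * (4 * (1 + c2) * s ^ 3) * (3 * (1 + c2) * s ^ 3) := by
          gcongr
          omega
        _ = 12 * (1 + c2) ^ 3 * s ^ 9 := by ring
    have hc3 : 1 ≤ (1 + c2) ^ 3 := Nat.one_le_pow _ _ (by omega)
    have hs9 : 1 ≤ s ^ 9 := Nat.one_le_pow _ _ hs1
    have e3' : k1 + 1 ≤ 13 * (1 + c2) ^ 3 * s ^ 9 := by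
      have : 1 ≤ (1 + c2) ^ 3 * s ^ 9 := Nat.mul_pos hc3 hs9
      calc k1 + 1 ≤ 12 * (1 + c2) ^ 3 * s ^ 9 + (1 + c2) ^ 3 * s ^ 9 := Nat.add_le_add e3 this
        _ = 13 * (1 + c2) ^ 3 * s ^ 9 := by ring
    have e4 : k ≤ 79 * (1 + c2) ^ 4 * s ^ 10 := by
      have h5 : c2 * s * (k1 + 1) ≤ 13 * (1 + c2) ^ 4 * s ^ 10 := by
        calc c2 * s * (k1 + 1) ≤ (1 + c2) * s * (13 * (1 + c2) ^ 3 * s ^ 9) := by
              gcongr
              omega
          _ = 13 * (1 + c2) ^ 4 * s ^ 10 := by ring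
      have h6 : 64 * s + 2 ≤ 66 * (1 + c2) ^ 4 * s ^ 10 := by
        have h7 : s ≤ s ^ 10 := Nat.le_self_pow (by norm_num) s
        have h8 : 1 ≤ (1 + c2) ^ 4 := Nat.one_le_pow _ _ (by omega)
        calc 64 * s + 2 ≤ 66 * s := by omega
          _ ≤ 66 * s ^ 10 := Nat.mul_le_mul_left _ h7
          _ = 66 * 1 * s ^ 10 := by ring
          _ ≤ 66 * (1 + c2) ^ 4 * s ^ 10 := by gcongr
      calc k = c2 * s * (k1 + 1) + (64 * s + 2) := hk
        _ ≤ 13 * (1 + c2) ^ 4 * s ^ 10 + 66 * (1 + c2) ^ 4 * s ^ 10 := Nat.add_le_add h5 h6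
        _ = 79 * (1 + c2) ^ 4 * s ^ 10 := by ring
    have e5 : D.Kh * D.r * k * k2 ≤ B * s ^ 16 := by
      rw [hDK, hDr]
      calc Kh * 2 * k * k2 ≤ (4 * (1 + c2) * s ^ 3) * (79 * (1 + c2) ^ 4 * s ^ 10) *
            (2 * (1 + c2) * s ^ 3) := by gcongr
        _ = 632 * (1 + c2) ^ 6 * s ^ 16 := by ring
        _ = B * s ^ 16 := by rw [hB]
    calc c1 * (D.Kh * D.r * k * k2) ^ c1 ≤ c1 * (B * s ^ 16) ^ c1 :=
          Nat.mul_le_mul_left _ (Nat.pow_le_pow_left e5 _)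
      _ = (c1 * B ^ c1) * s ^ (16 * c1) := by
          rw [mul_pow, ← pow_mul]
          ring
      _ ≤ c * s ^ c := Nat.mul_le_mul (by omega) (Nat.pow_le_pow_right hs1 (by omega))
  by_contra hcon
  have hk1' : 1 ≤ k := by omega
  have hbad : Bad D k k2 := hc1 V P Q D k k2 hOk hGOk hk1' (by omega) (by rw [hDK]; omega)
    (by rw [hDG]; exact hcrit) (by
      rw [hDG]
      exact fun h => hcon (kpl_le h hbound))
  rcases Set.eq_empty_or_nonempty D.U with hU | hU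
  · have h2 := no_hubs hOk hGOk hbad (t := 8 * s) (by
      rw [hs]
      exact Pool.Agent.Helper71.QU.pow_t _) (by omega) hU a0 b0
    rw [hDG] at h2
    exact h2 hab0
  · obtain ⟨a, ha⟩ := hU
    obtain ⟨b, hb⟩ : ∃ b, G.Adj a b := by
      have ha' : 0 < deg G a := by
        have := hGOk.U_ge a ha
        rw [hDG] at this
        omega
      have : (G.neighborSet a).Nonempty := by
        rw [← Set.ncard_pos (Set.toFinite _)]
        exact ha'
      exact this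
    obtain ⟨pos, γ, hd, hcr⟩ := hcrit s(a, b) hb
    refine hc2 V P Q D (G.deleteEdges {s(a, b)}) s(a, b) (CrossRel γ) k k1 k2 s hOk hGOk ⟨a, ha⟩
      ?_ hDL.le hs.ge ?_ ?_ ?_ ?_ hbad
    · refine ⟨by rw [hDG], by rw [hDG]; exact hb, ?_, crossRel_symm γ, ?_,
        planarLike_of_drawing _ pos γ hd⟩
      · intro h
        exact hOk.N_U a b h ha
      · intro f hf
        have hf' : f ∈ G.edgeSet ∧ f ≠ s(a, b) := by
          rw [SimpleGraph.edgeSet_deleteEdges] at hf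
          exact ⟨hf.1, hf.2⟩
        refine le_trans (Set.ncard_le_ncard ?_ (Set.toFinite _))
          (partner_le G s(a, b) γ hcr f hf'.1 hf'.2)
        rintro f' ⟨h2, h3⟩
        rw [SimpleGraph.edgeSet_deleteEdges] at h2
        exact ⟨h2.1, h2.2, h3⟩
    · rw [hDK, hDr]
      omega
    · omega
    · rw [hDK, hDr]
      exact hk1.ge
    · omega

theorem main_PL : ∃ c : ℕ, ∀ (m : ℕ) (V : Type) [Fintype V] (G : SimpleGraph V), 1 ≤ m →
    ¬ KPl m G → (∀ e ∈ G.edgeSet, KPl m (G.deleteEdges {e})) →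
    KPl (m * (c * (Nat.log 2 (m * Fintype.card V) + 1) ^ c)) G := by
  classical
  obtain ⟨c, hc⟩ := main_one
  obtain ⟨C, hC⟩ : ∃ C, C = 2 + 2 * (c * 8 ^ c) + c := ⟨_, rfl⟩
  refine ⟨C, fun m V _ G hm h1 hcrit => ?_⟩
  obtain ⟨l, hl⟩ : ∃ l, l = Nat.log 2 (m * Fintype.card V) + 1 := ⟨_, rfl⟩
  rw [← hl]
  have hl1 : 1 ≤ l := by omega
  have hm2 : 1 ≤ 2 * m := by omega
  -- the graph with subdivided edges
  by_cases a1 : KPl 1 (Sd (2 * m) G)
  · refine kpl_le (s1 (2 * m) 1 hm2 G a1) ?_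
    have h2 : 1 ≤ l ^ C := Nat.one_le_pow _ _ hl1
    calc 1 * (2 * m) = m * (2 * 1) := by ring
      _ ≤ m * (C * l ^ C) := Nat.mul_le_mul_left _ (Nat.mul_le_mul (by omega) h2)
  have a2 : ∀ e ∈ (Sd (2 * m) G).edgeSet, KPl 1 ((Sd (2 * m) G).deleteEdges {e}) := by
    intro e he
    obtain ⟨f, t, hf, ht, rfl⟩ := Sd_edge.1 he
    exact s3 (2 * m) hm2 G f hf t ht (s2 (2 * m) hm2 _ (kpl_le (hcrit f hf) (by omega)))
  have a3 : ThrLen (Sd (2 * m) G) (2 * m * 1) (2 * m * Nat.card V) := by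
    refine s4 (2 * m) hm2 G 1 (Nat.card V) ?_
    intro u v p hp huv _ _ _
    constructor
    · rcases Nat.eq_zero_or_pos p.length with h | h
      · exact absurd (SimpleGraph.Walk.eq_of_length_eq_zero h) huv
      · exact h
    · have h2 := hp.length_lt
      rw [Nat.card_eq_fintype_card]
      exact h2.le
  have b1 := hc (SV V (2 * m)) (Sd (2 * m) G) a1 a2 (fun u v p hp huv hu hv hin => by
    have := (a3 u v p hp huv hu hv hin).1
    omega)
  refine kpl_le (s1 (2 * m) _ hm2 G b1) ?_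
  -- the number of vertices
  obtain ⟨n, hn⟩ : ∃ n, n = Fintype.card V := ⟨_, rfl⟩
  have hcard : Nat.card (SV V (2 * m)) ≤ 4 * (m * n) * (m * n) := by
    rw [Nat.card_eq_fintype_card, Fintype.card_sum, Fintype.card_prod, Fintype.card_fin,
      Sym2.card, ← hn, Nat.choose_two_right]
    have h3 : (n + 1) * (n + 1 - 1) / 2 * 2 = (n + 1) * n := by
      rw [Nat.add_sub_cancel]
      exact Nat.div_mul_cancel (by rw [mul_comm]; exact (Nat.even_mul_succ_self n).two_dvd)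
    have h4 : (n + 1) * (n + 1 - 1) / 2 * (2 * m) = (n + 1) * n * m := by
      rw [← h3]
      ring
    rw [h4]
    rcases Nat.eq_zero_or_pos n with h0 | h0
    · subst h0
      simp
    · have h5 : n ≤ (m * n) * (m * n) := by
        calc n = 1 * n * (1 * 1) := by ring
          _ ≤ m * n * (m * n) := Nat.mul_le_mul (Nat.mul_le_mul_right _ hm)
            (Nat.mul_le_mul hm h0)
      have h6 : (n + 1) * n * m ≤ 2 * ((m * n) * (m * n)) := by
        calc (n + 1) * n * m ≤ (2 * n) * n * m := by gcongr; omega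
          _ = 2 * (n * n * m * 1) := by ring
          _ ≤ 2 * (n * n * m * m) := by gcongr
          _ = 2 * ((m * n) * (m * n)) := by ring
      calc n + (n + 1) * n * m ≤ (m * n) * (m * n) + 2 * ((m * n) * (m * n)) := Nat.add_le_add h5 h6
        _ ≤ 4 * (m * n) * (m * n) := by
          have := Nat.zero_le ((m * n) * (m * n))
          nlinarith
  have hlog : Nat.log 2 (Nat.card (SV V (2 * m))) + 1 ≤ 8 * l := by
    have h3 : Nat.card (SV V (2 * m)) < 2 ^ (2 + l + l) := by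
      have h4 : m * n < 2 ^ l := by
        rw [hl, hn]
        exact Nat.lt_pow_succ_log_self (by norm_num) _
      calc Nat.card (SV V (2 * m)) ≤ 4 * (m * n) * (m * n) := hcard
        _ ≤ 4 * 2 ^ l * (m * n) := by gcongr
        _ < 4 * 2 ^ l * 2 ^ l := Nat.mul_lt_mul_of_pos_left h4 (by positivity)
        _ = 2 ^ (2 + l + l) := by
          rw [pow_add, pow_add]
          norm_num
    have h5 : Nat.log 2 (Nat.card (SV V (2 * m))) < 2 + l + l := Nat.log_lt_of_lt_pow' (by omega) h3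
    omega
  calc c * (Nat.log 2 (Nat.card (SV V (2 * m))) + 1) ^ c * (2 * m)
      ≤ c * (8 * l) ^ c * (2 * m) := by gcongr
    _ = m * ((2 * (c * 8 ^ c)) * l ^ c) := by
      rw [mul_pow]
      ring
    _ ≤ m * (C * l ^ C) := by
      apply Nat.mul_le_mul_left
      exact Nat.mul_le_mul (by omega) (Nat.pow_le_pow_right hl1 (by omega))

end Pool.Agent.Helper23.PL.Fin
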