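import Pool.Agent.Helper21.PL.NbLe

/-!
# PL-7A: scales
-/

set_option autoImplicit false

open Set
open Pool.Agent.Helper83.OP Pool.Agent.Helper93.HH Pool.Agent.Helper23.PL

namespace Pool.Agent.Helper23.PL.Sca

section

variable {V P Q : Type} {D : HD V P Q} {k k1 k2 : ℕ}

theorem Pn_mono {t t' : ℕ} {y : V} {q : P} (h : Pn D t y q) (ht : t ≤ t') : Pn D t' y q := by
  obtain ⟨s, h1, h2⟩ := h
  exact ⟨s, h1, h2.trans ht⟩

theorem e1_le {p q : P} {t : ℕ} (h : D.hub q ≠ D.hub p) (h' : Pn D t (D.x p) q) :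
    e1 D p ≤ t := Nat.sInf_le (Or.inl ⟨q, h, h'⟩)

theorem e1_cap (p : P) : e1 D p ≤ cap D := Nat.sInf_le (Or.inr rfl)

theorem e1_spec {p : P} (h : e1 D p < cap D) :
    D.hub (pt1 D p) ≠ D.hub p ∧ Pn D (e1 D p) (D.x p) (pt1 D p) := by
  have h1 : e1 D p ∈ ({t | ∃ q, D.hub q ≠ D.hub p ∧ Pn D t (D.x p) q} ∪ {cap D} : Set ℕ) :=
    Nat.sInf_mem ⟨cap D, Or.inr rfl⟩
  have h2 : ∃ q, D.hub q ≠ D.hub p ∧ Pn D (e1 D p) (D.x p) q := by
    rcases h1 with h1 | h1
    · exact h1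
    · exact absurd h1 h.ne
  have h3 : pt1 D p = h2.choose := by
    unfold pt1
    rw [dif_pos h2]
  rw [h3]
  exact h2.choose_spec

theorem e2_le {p q : P} {t : ℕ} (h : D.hub q ≠ D.hub p) (h1 : D.hub q ≠ D.hub (pt1 D p))
    (h' : Pn D t (D.x p) q) : e2 D p ≤ t := Nat.sInf_le (Or.inl ⟨q, h, h1, h'⟩)

theorem e2_spec {p : P} (h : e2 D p < cap D) : ∃ q, D.hub q ≠ D.hub p ∧
    D.hub q ≠ D.hub (pt1 D p) ∧ Pn D (e2 D p) (D.x p) q := by
  have h1 : e2 D p ∈ ({t | ∃ q, D.hub q ≠ D.hub p ∧ D.hub q ≠ D.hub (pt1 D p) ∧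
      Pn D t (D.x p) q} ∪ {cap D} : Set ℕ) := Nat.sInf_mem ⟨cap D, Or.inr rfl⟩
  rcases h1 with h1 | h1
  · exact h1
  · exact absurd h1 h.ne

theorem e1_le_e2 (p : P) : e1 D p ≤ e2 D p := by
  by_cases h : e2 D p < cap D
  · obtain ⟨q, h1, -, h2⟩ := e2_spec h
    exact e1_le h1 h2
  · exact (e1_cap p).trans (by omega)

theorem Rb_spec {y : V} (h : Rb D k2 y < cap D) : k2 < bv D (D.ball (Rb D k2 y) y) := by
  have h1 : Rb D k2 y ∈ ({t | k2 < bv D (D.ball t y)} ∪ {cap D} : Set ℕ) :=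
    Nat.sInf_mem ⟨cap D, Or.inr rfl⟩
  rcases h1 with h1 | h1
  · exact h1
  · exact absurd h1 h.ne

theorem Rb_lt {y : V} {t : ℕ} (h : t < Rb D k2 y) : bv D (D.ball t y) ≤ k2 := by
  by_contra hcon
  have h1 : Rb D k2 y ≤ t := Nat.sInf_le (Or.inl (by
    show k2 < bv D (D.ball t y)
    omega))
  omega

theorem Rb_le [Finite V] {y y' : V} {t : ℕ} (h : Nr D.N t y y') :
    Rb D k2 y' ≤ Rb D k2 y + t := by
  have h1 : Rb D k2 y ∈ ({t | k2 < bv D (D.ball t y)} ∪ {cap D} : Set ℕ) :=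
    Nat.sInf_mem ⟨cap D, Or.inr rfl⟩
  rcases h1 with h1 | h1
  · refine Nat.sInf_le (Or.inl ?_)
    show k2 < bv D (D.ball (Rb D k2 y + t) y')
    have h2 : k2 < bv D (D.ball (Rb D k2 y) y) := h1
    refine h2.trans_le (Set.ncard_le_ncard ?_ (Set.toFinite _))
    refine Set.inter_subset_inter_left _ ?_
    intro v hv
    have hv' : Nr D.N (Rb D k2 y) y v := hv
    show Nr D.N (Rb D k2 y + t) y' v
    rw [Nat.add_comm]
    exact h.symm.trans hv'
  · have h2 : Rb D k2 y = cap D := h1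
    have h3 : Rb D k2 y' ≤ cap D := Nat.sInf_le (Or.inr rfl)
    omega

/-- the number of pins in a small ball -/
theorem pins_ball [Finite V] [Finite P] (hD : D.Ok) {y : V} {t m : ℕ}
    (h : bv D (D.ball t y) ≤ m) : {p | Nr D.N t y (D.x p)}.ncard ≤ D.Kh * D.r * m := by
  classical
  have hfin : (D.ball t y ∩ Vb D).Finite := Set.toFinite _
  have hfp : {p | Nr D.N t y (D.x p)}.Finite := Set.toFinite _
  have h1 : hfp.toFinset.card ≤ (D.Kh * D.r) * hfin.toFinset.card := by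
    refine Finset.card_le_mul_card_image_of_maps_to (f := D.x) ?_ _ ?_
    · intro p hp
      rw [Set.Finite.mem_toFinset] at hp ⊢
      exact ⟨hp, hD.three p⟩
    · intro v hv
      by_cases hvU : v ∈ D.U
      · have : (hfp.toFinset.filter fun p => D.x p = v) = ∅ := by
          rw [Finset.filter_eq_empty_iff]
          intro p _ hp
          exact hD.x_U p (hp ▸ hvU)
        rw [this]
        simp
      · have h2 : (hfp.toFinset.filter fun p => D.x p = v).card ≤ D.pn v := by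
          unfold HD.pn
          rw [← Set.ncard_coe_finset]
          refine Set.ncard_le_ncard ?_ (Set.toFinite _)
          intro p hp
          rw [Finset.mem_coe, Finset.mem_filter] at hp
          exact hp.2
        have h3 : D.pn v ≤ D.dg v := Nat.le_add_left _ _
        exact (h2.trans h3).trans (hD.dg_le v hvU)
  rw [Set.ncard_eq_toFinset_card _ hfp]
  refine h1.trans (Nat.mul_le_mul_left _ ?_)
  rw [← Set.ncard_eq_toFinset_card _ hfin]
  exact h

theorem sg_le [Finite V] [Finite P] [Finite Q] (hD : D.Ok) (hB : Bad D k k2) (hk : k2 ≤ k)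
    (hk1 : 1 ≤ k) (p : P) :
    2 ≤ sg D k2 p ∧ sg D k2 p ≤ Nat.card V + D.L ∧ 128 * sg D k2 p < cap D ∧
      sg D k2 p ≤ lam D p := by
  have hf := Pool.Agent.Helper21.PL.fin hD hB hk hk1 p
  have hxV : 0 < Nat.card V := by
    have : Nonempty V := ⟨D.x p⟩
    exact Nat.card_pos
  have hcap : cap D = 1000 * (Nat.card V + D.L) := rfl
  have hw2 : 2 ≤ (D.w p).length := hD.r_pos.trans (hD.w_ge p)
  have hwL := hD.w_le p
  have hsg : sg D k2 p = max (D.w p).length (min (e1 D p) (Rb D k2 (D.x p))) := rfl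
  have hlam : lam D p = (D.w p).length + e1 D p := rfl
  have hm : min (e1 D p) (Rb D k2 (D.x p)) ≤ Nat.card V + D.L := by
    rcases min_lt_iff.1 hf with h | h
    · obtain ⟨h1, s, h2, h3⟩ := e1_spec h
      have h4 := hD.w_le (pt1 D p)
      have h5 : e1 D p ≤ Nat.card V + D.L :=
        e1_le h1 ⟨Nat.card V, Nr.card h2.reachable, by omega⟩
      exact (min_le_left _ _).trans h5
    · have h1 := Rb_spec h
      have h2 : Rb D k2 (D.x p) ≤ Nat.card V := by
        refine Nat.sInf_le (Or.inl ?_)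
        show k2 < bv D (D.ball (Nat.card V) (D.x p))
        refine h1.trans_le (Set.ncard_le_ncard ?_ (Set.toFinite _))
        refine Set.inter_subset_inter_left _ ?_
        intro v hv
        have hv' : Nr D.N (Rb D k2 (D.x p)) (D.x p) v := hv
        exact Nr.card hv'.reachable
      exact (min_le_right _ _).trans (h2.trans (Nat.le_add_right _ _))
  have h0 : min (e1 D p) (Rb D k2 (D.x p)) ≤ e1 D p := min_le_left _ _
  have h1 : sg D k2 p ≤ Nat.card V + D.L := by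
    rw [hsg]
    exact max_le (hwL.trans (Nat.le_add_left _ _)) hm
  refine ⟨?_, h1, by omega, ?_⟩
  · rw [hsg]
    exact hw2.trans (le_max_left _ _)
  · rw [hsg, hlam]
    exact max_le (Nat.le_add_right _ _) (h0.trans (Nat.le_add_left _ _))

/-- **D1.** -/
theorem no_byp [Finite V] [Finite P] [Finite Q] (hD : D.Ok) (hB : Bad D k k2) (hk : k2 ≤ k)
    (hk1 : 1 ≤ k) (p : P) : ¬ Byp D (Fp D p) (k * (sg D k2 p - 1)) (D.x p) (D.hub p) := by
  intro hb
  have hsg : sg D k2 p = max (D.w p).length (min (e1 D p) (Rb D k2 (D.x p))) := rfl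
  have hw2 : 2 ≤ (D.w p).length := hD.r_pos.trans (hD.w_ge p)
  rcases le_total (min (e1 D p) (Rb D k2 (D.x p))) (D.w p).length with h | h
  · rw [max_eq_left h] at hsg
    rw [hsg] at hb
    exact hB.p1 p (Pool.Agent.Helper63.PL.Byp.mono hb (fun f hf => hf)
      (Nat.mul_le_mul_left _ (Nat.sub_le _ _)))
  · rw [max_eq_right h] at hsg
    rw [hsg] at hb
    obtain ⟨ρ, hρ⟩ : ∃ ρ, min (e1 D p) (Rb D k2 (D.x p)) = ρ + 1 :=
      ⟨min (e1 D p) (Rb D k2 (D.x p)) - 1, by omega⟩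
    have h1 : ρ + 1 ≤ e1 D p := hρ ▸ min_le_left _ _
    have h2 : ρ + 1 ≤ Rb D k2 (D.x p) := hρ ▸ min_le_right _ _
    rw [hρ, Nat.add_sub_cancel] at hb
    refine hB.p2 p ρ (by omega) (Rb_lt (by omega)) ?_ hb
    intro q hq
    by_contra hne
    have := e1_le hne hq
    omega

end

end Pool.Agent.Helper23.PL.Sca
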