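import Pool.Agent.Helper23.PL.Defs
import Pool.Agent.Helper43.HH.Energy
import Pool.Agent.Helper78.PL.DP
import Pool.Agent.Helper9.PL.TSaOf
import Pool.Agent.Helper26.PL.TSb
import Pool.Agent.Helper25.PL.CG
import Pool.Agent.Helper77.PL.SepA
import Pool.Agent.Helper63.PL.Walks

/-!
# PL: abstract lemmas (proved by helper78, helper9, helper26, helper25, helper77, helper63)
-/

set_option autoImplicit false

open Set
open Pool.Agent.Helper83.OP Pool.Agent.Helper93.HH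

namespace Pool.Agent.Helper23.PL

/-- **PL-1 (DP).** Disjoint short paths with different pairs of ends. -/
theorem DP {V : Type} [Finite V] (H : SimpleGraph V) (X : Sym2 V → Sym2 V → Prop)
    (hs : ∀ f f', X f f' → X f' f)
    (h1 : ∀ f ∈ H.edgeSet, {f' | f' ∈ H.edgeSet ∧ X f f'}.ncard ≤ 1) (hP : PlanarLike H X)
    (U : Set V) {I : Type} [Finite I] (a b : I → V) (W : ∀ i, H.Walk (a i) (b i)) (l : ℕ)
    (ha : ∀ i, a i ∈ U) (hb : ∀ i, b i ∈ U) (hne : ∀ i, a i ≠ b i)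
    (hin : ∀ i, ∀ z ∈ (W i).support, z ∈ U → z = a i ∨ z = b i)
    (hd : ∀ i j, i ≠ j → ∀ z ∈ (W i).support, z ∈ (W j).support → z ∈ U)
    (hl : ∀ i, (W i).length ≤ l)
    (hp : ∀ i j, i ≠ j → s(a i, b i) ≠ s(a j, b j)) :
    Nat.card I ≤ 4 * (l + 1) * U.ncard := Pool.Agent.Helper78.PL.DP H X hs h1 hP U a b W l ha hb hne hin hd hl hp

/-- **PL-2 (TSa).** Paths from `s i` to `b i ∈ U`, disjoint but for common starting points. -/
theorem TSa : ∃ A : ℕ, ∀ {V : Type} [Finite V] (H : SimpleGraph V) (X : Sym2 V → Sym2 V → Prop),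
    (∀ f f', X f f' → X f' f) →
    (∀ f ∈ H.edgeSet, {f' | f' ∈ H.edgeSet ∧ X f f'}.ncard ≤ 1) → PlanarLike H X →
    ∀ (U : Set V) {I : Type} [Finite I] (s b : I → V) (W : ∀ i, H.Walk (s i) (b i)) (l : ℕ),
    (∀ i, s i ∉ U) → (∀ i, b i ∈ U) → (∀ i, ∀ z ∈ (W i).support, z ∈ U → z = b i) →
    (∀ i j, i ≠ j → ∀ z ∈ (W i).support, z ∈ (W j).support → z ∈ U ∨ (z = s i ∧ z = s j)) →
    (∀ i, (W i).length ≤ l) →
    (∀ i j, i ≠ j → s i = s j → b i ≠ b j) →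
    Nat.card I ≤ A * ((l + 1) * U.ncard + (Set.range s).ncard) := by
  refine ⟨6472, ?_⟩
  intro V _ H X a1 a2 a3 U I _ s b W l b1 b2 b3 b4 b5 b6
  refine Pool.Agent.Helper9.PL.tsa_of ?_ H X a1 a2 a3 U s b W l b1 b2 b3 b4 b5 b6
  intro V _ H X c1 c2 c3 U I _ a b W l d1 d2 d3 d4 d5 d6 d7
  exact DP H X c1 c2 c3 U a b W l d1 d2 d3 d4 d5 d6 d7

/-- **PL-3 (TSb).** Tripods with centre `x i`, one foot `t i 0` outside `U` and two feet `t i 1`, `t i 2` in `U`, disjoint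
but for common first feet. -/
theorem TSb : ∃ A : ℕ, ∀ {V : Type} [Finite V] (H : SimpleGraph V) (X : Sym2 V → Sym2 V → Prop),
    (∀ f f', X f f' → X f' f) →
    (∀ f ∈ H.edgeSet, {f' | f' ∈ H.edgeSet ∧ X f f'}.ncard ≤ 1) → PlanarLike H X →
    ∀ (U : Set V) {I : Type} [Finite I] (x : I → V) (t : I → Fin 3 → V)
      (W : ∀ i k, H.Walk (x i) (t i k)) (l : ℕ),
    (∀ i, x i ∉ U) → (∀ i, x i ≠ t i 0) → (∀ i, t i 0 ∉ U) → (∀ i, t i 1 ∈ U) → (∀ i, t i 2 ∈ U) →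
    (∀ i, t i 1 ≠ t i 2) →
    (∀ i k, ∀ z ∈ (W i k).support, z ∈ U → z = t i k) →
    (∀ i k, k ≠ 0 → t i 0 ∉ (W i k).support) →
    (∀ i j, i ≠ j → ∀ k k', ∀ z ∈ (W i k).support, z ∈ (W j k').support →
      z ∈ U ∨ (z = t i 0 ∧ z = t j 0)) →
    (∀ i k, (W i k).length ≤ l) →
    (∀ i j, i ≠ j → t i 0 = t j 0 → s(t i 1, t i 2) ≠ s(t j 1, t j 2)) →
    Nat.card I ≤ A * ((l + 1) * U.ncard + (Set.range fun i => t i 0).ncard) := Pool.Agent.Helper26.PL.TSb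

/-- **PL-4 (CG).** Cells and groups of three marks. `B`: marks (pins), `C`: centres, `q`: partners. -/
theorem CG : ∃ A : ℕ, ∀ (V P Q : Type) [Finite V] [Finite P] [Finite Q] (D : HD V P Q)
    (H : SimpleGraph V) (e0 : Sym2 V) (X : Sym2 V → Sym2 V → Prop), D.Ok → D.Dr H e0 X →
    ∀ (U' : Set V) (R R' lm : ℕ) (B C : Set P) (q : P → P), U' ⊆ D.U → C ⊆ B → R' ≤ R →
    (∀ p ∈ B, ∃ c ∈ C, Nr D.N R (D.x p) (D.x c)) →
    (∀ p ∈ B, D.hub p ∈ U' ∧ D.hub (q p) ∈ U' ∧ e0 ∉ (D.w p).edges ∧ e0 ∉ (D.w (q p)).edges ∧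
      (D.w p).length ≤ R ∧ (D.w (q p)).length ≤ R ∧ Nr D.N R' (D.x p) (D.x (q p))) →
    (∀ v, {p | p ∈ B ∧ Nr D.N R' v (D.x p)}.ncard ≤ lm) →
    (∀ p ∈ B, ∀ p' ∈ B, ∀ p'' ∈ B, p ≠ p' → p ≠ p'' → p' ≠ p'' → Nr D.N (2 * R) (D.x p) (D.x p') →
      Nr D.N (2 * R) (D.x p) (D.x p'') → Nr D.N (2 * R) (D.x p') (D.x p'') →
      3 ≤ ({D.hub p, D.hub (q p), D.hub p', D.hub (q p'), D.hub p'', D.hub (q p'')} : Set V).ncard) →
    B.ncard ≤ A * (R + 1) * (D.Kh * D.r + lm) * U'.ncard + 2 * C.ncard := Pool.Agent.Helper25.PL.CG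

section

variable {V P Q : Type} [Finite V] [Finite P] [Finite Q] {D : HD V P Q} {k k1 k2 : ℕ}

/-- **PL-5a (girthG).** A graph whose edges are walks of cost `t0`, without cheap bypasses, has few edges. -/
theorem girthG (t0 g t : ℕ) (Γ : SimpleGraph V) (F : Sym2 V → Set (Sym2 V))
    (h : ∀ f ∈ Γ.edgeSet, ∀ u v, Γ.Adj u v → s(u, v) ≠ f → Rch D (F f) t0 u v)
    (hno : ∀ u v, Γ.Adj u v → ¬ Rch D (F s(u, v)) (g * t0) v u)
    (C : Set V) (hC : ∀ a b, Γ.Adj a b → a ∈ C)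
    (ht : 10 ^ t * Nat.card V < 11 ^ t) (hg : 8 * t + 2 ≤ g) :
    10 * Γ.edgeSet.ncard ≤ 11 * C.ncard := Pool.Agent.Helper77.PL.girthG t0 g t Γ F h hno C hC ht hg

/-- **PL-5b.** Maximal separated families. -/
theorem exists_sep (D : HD V P Q) (B : Set P) (R : ℕ) : ∃ C : Set P, C ⊆ B ∧
    (∀ p ∈ C, ∀ p' ∈ C, p ≠ p' → ¬ Nr D.N R (D.x p) (D.x p')) ∧
    ∀ p ∈ B, ∃ c ∈ C, Nr D.N R (D.x p) (D.x c) := Pool.Agent.Helper77.PL.exists_sep D B R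

/-- **PL-5c.** Few big balls. -/
theorem big_few (D : HD V P Q) (R : ℕ) (C : Set P)
    (hsep : ∀ p ∈ C, ∀ p' ∈ C, p ≠ p' → ¬ Nr D.N (2 * R) (D.x p) (D.x p'))
    (hbig : ∀ p ∈ C, k2 < bv D (D.ball R (D.x p))) : (k2 + 1) * C.ncard ≤ (Vb D).ncard := Pool.Agent.Helper77.PL.big_few D R C hsep hbig

/-- **PL-5d.** `Rch` and `Byp`. -/
theorem Rch.mono {F F' : Set (Sym2 V)} {t t' : ℕ} {u v : V} (h : Rch D F t u v) (hF : F' ⊆ F)
    (ht : t ≤ t') : Rch D F' t' u v := Pool.Agent.Helper63.PL.Rch.mono h hF ht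

theorem Rch.symm {F : Set (Sym2 V)} {t : ℕ} {u v : V} (h : Rch D F t u v) : Rch D F t v u := Pool.Agent.Helper63.PL.Rch.symm h

theorem Rch.trans {F : Set (Sym2 V)} {t t' : ℕ} {u v w : V} (h : Rch D F t u v)
    (h' : Rch D F t' v w) : Rch D F (t + t') u w := Pool.Agent.Helper63.PL.Rch.trans h h'

/-- a walk of `N` -/
theorem Rch.of_nr (hD : D.Ok) (p : P) {t : ℕ} {u v : V} (hu : u ∉ D.U) (h : Nr D.N t u v) :
    Rch D (Fp D p) t u v := Pool.Agent.Helper63.PL.Rch.of_nr hD p hu h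

/-- from the foot of a pin to its hub -/
theorem Rch.pin (hD : D.Ok) {p q : P} (h : q ≠ p) :
    Rch D (Fp D p) ((D.w q).length + deg D.G (D.hub q)) (D.x q) (D.hub q) := Pool.Agent.Helper63.PL.Rch.pin hD h

/-- from the foot of a pin to the neighbour of the hub on the pin -/
theorem Byp.pin (hD : D.Ok) {p q : P} (h : q ≠ p) :
    Byp D (Fp D p) (D.w q).length (D.x q) (D.hub q) := Pool.Agent.Helper63.PL.Byp.pin hD h

theorem Byp.trans {F : Set (Sym2 V)} {t t' : ℕ} {u v a : V} (h : Rch D F t u v)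
    (h' : Byp D F t' v a) : Byp D F (t + t') u a := Pool.Agent.Helper63.PL.Byp.trans h h'

theorem Byp.mono {F F' : Set (Sym2 V)} {t t' : ℕ} {u a : V} (h : Byp D F t u a) (hF : F' ⊆ F)
    (ht : t ≤ t') : Byp D F' t' u a := Pool.Agent.Helper63.PL.Byp.mono h hF ht

/-- a walk that arrives at `a` -/
theorem Rch.byp {F : Set (Sym2 V)} {t : ℕ} {u a : V} (h : Rch D F t u a) (hne : u ≠ a) :
    Byp D F t u a := Pool.Agent.Helper63.PL.Rch.byp h hne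

/-- an edge is on at most one pin -/
theorem pin_uniq (hD : D.Ok) {p q : P} {f : Sym2 V} (h : f ∈ (D.w p).edges)
    (h' : f ∈ (D.w q).edges) : p = q := Pool.Agent.Helper63.PL.pin_uniq hD h h'

end

end Pool.Agent.Helper23.PL
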