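import Pool.Agent.Helper23.PL.SpecA
import Pool.Agent.Helper95.HH.GOk
import Pool.Agent.Helper21.PL.NbLe
import Pool.Agent.Helper17.PL.T5
import Pool.Agent.Helper23.PL.Scales

/-!
# PL: facts about scales (proved by helper21, helper17, helper23)
-/

set_option autoImplicit false

open Set
open Pool.Agent.Helper83.OP Pool.Agent.Helper93.HH Pool.Agent.Helper95.HH

namespace Pool.Agent.Helper23.PL

section

variable {V P Q : Type} [Finite V] [Finite P] [Finite Q] {D : HD V P Q} {k k1 k2 : ℕ}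

/-! ## PL-6: cycles -/

/-- **PL-6a.** The number of branch vertices. -/
theorem nb_le (hD : D.Ok) (hB : Bad D k k2) (t : ℕ) (ht : 10 ^ t * Nat.card V < 11 ^ t)
    (hk : 8 * t + 2 ≤ k) : (Vb D).ncard ≤ 2 * Nat.card P :=
  Pool.Agent.Helper21.PL.nb_le hD hB t ht hk

/-- **PL-6b.** -/
theorem fin (hD : D.Ok) (hB : Bad D k k2) (hk : k2 ≤ k) (hk1 : 1 ≤ k) (p : P) :
    min (e1 D p) (Rb D k2 (D.x p)) < cap D :=
  Pool.Agent.Helper21.PL.fin hD hB hk hk1 p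

/-! ## PL-7: scales -/

theorem Pn.mono {t t' : ℕ} {y : V} {q : P} (h : Pn D t y q) (ht : t ≤ t') : Pn D t' y q :=
  Sca.Pn_mono h ht

theorem e1_le {p q : P} {t : ℕ} (h : D.hub q ≠ D.hub p) (h' : Pn D t (D.x p) q) : e1 D p ≤ t :=
  Sca.e1_le h h'

theorem e1_spec {p : P} (h : e1 D p < cap D) :
    D.hub (pt1 D p) ≠ D.hub p ∧ Pn D (e1 D p) (D.x p) (pt1 D p) :=
  Sca.e1_spec h

theorem e2_le {p q : P} {t : ℕ} (h : D.hub q ≠ D.hub p) (h1 : D.hub q ≠ D.hub (pt1 D p))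
    (h' : Pn D t (D.x p) q) : e2 D p ≤ t :=
  Sca.e2_le h h1 h'

theorem e2_spec {p : P} (h : e2 D p < cap D) : ∃ q, D.hub q ≠ D.hub p ∧
    D.hub q ≠ D.hub (pt1 D p) ∧ Pn D (e2 D p) (D.x p) q :=
  Sca.e2_spec h

theorem e1_le_e2 (p : P) : e1 D p ≤ e2 D p :=
  Sca.e1_le_e2 p

theorem Rb_spec {y : V} (h : Rb D k2 y < cap D) : k2 < bv D (D.ball (Rb D k2 y) y) :=
  Sca.Rb_spec h

theorem Rb_lt {y : V} {t : ℕ} (h : t < Rb D k2 y) : bv D (D.ball t y) ≤ k2 :=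
  Sca.Rb_lt h

/-- `x p'` is within `t` of `x p` -/
theorem Rb_le {y y' : V} {t : ℕ} (h : Nr D.N t y y') : Rb D k2 y' ≤ Rb D k2 y + t :=
  Sca.Rb_le h

/-- the number of pins in a small ball -/
theorem pins_ball (hD : D.Ok) {y : V} {t m : ℕ} (h : bv D (D.ball t y) ≤ m) :
    {p | Nr D.N t y (D.x p)}.ncard ≤ D.Kh * D.r * m :=
  Sca.pins_ball hD h

theorem sg_le (hD : D.Ok) (hB : Bad D k k2) (hk : k2 ≤ k) (hk1 : 1 ≤ k) (p : P) :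
    2 ≤ sg D k2 p ∧ sg D k2 p ≤ Nat.card V + D.L ∧ 128 * sg D k2 p < cap D ∧
      sg D k2 p ≤ lam D p :=
  Sca.sg_le hD hB hk hk1 p

/-- **D1.** -/
theorem no_byp (hD : D.Ok) (hB : Bad D k k2) (hk : k2 ≤ k) (hk1 : 1 ≤ k) (p : P) :
    ¬ Byp D (Fp D p) (k * (sg D k2 p - 1)) (D.x p) (D.hub p) :=
  Sca.no_byp hD hB hk hk1 p

/-- the nearest other hub of a `T5` pin -/
theorem t5_e1 {p : P} (h : T5 D k k2 p) : e1 D p ≤ sg D k2 p ∧ lam D p ≤ 2 * sg D k2 p :=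
  Pool.Agent.Helper17.PL.t5_e1 h

theorem t5_cap (hD : D.Ok) (hB : Bad D k k2) (hk : k2 ≤ k) (hk1 : 8 ≤ k) {p : P}
    (h : T5 D k k2 p) : rho D k2 p < cap D ∧ D.hub (pt1 D p) ≠ D.hub p ∧
      Pn D (e1 D p) (D.x p) (pt1 D p) ∧ k * rho D k2 p < 2 * deg D.G (D.hub (pt1 D p)) :=
  Pool.Agent.Helper17.PL.t5_cap hD hB hk hk1 h

/-- near `x p` there is no other unit with the same hubs which is not longer -/
theorem t5_pair (hD : D.Ok) (hB : Bad D k k2) (hk : k2 ≤ k) (hk1 : 8 ≤ k) {p p' : P}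
    (h : T5 D k k2 p) (hne : p ≠ p') (hnp : p ≠ pt1 D p') (he : e1 D p' < cap D)
    (hl : lam D p' ≤ lam D p)
    (hpair : s(D.hub p, D.hub (pt1 D p)) = s(D.hub p', D.hub (pt1 D p'))) :
    ¬ Rch D (Fp D p) (k * (rho D k2 p - 1)) (D.x p) (D.x p') :=
  Pool.Agent.Helper17.PL.t5_pair hD hB hk hk1 h hne hnp he hl hpair

theorem t5_inj (hD : D.Ok) (hB : Bad D k k2) (hk : k2 ≤ k) (hk1 : 100 ≤ k) {p p' : P}
    (h : T5 D k k2 p) (h' : T5 D k k2 p')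
    (hj : Nat.log 2 (rho D k2 p) = Nat.log 2 (rho D k2 p')) (hq : pt1 D p = pt1 D p') : p = p' :=
  Pool.Agent.Helper17.PL.t5_inj hD hB hk hk1 h h' hj hq

theorem t5_A (hD : D.Ok) (hB : Bad D k k2) (hk : k2 ≤ k) (hk1 : 100 * (k1 + 1) ≤ k) {p : P}
    (h : T5 D k k2 p) (hn : ¬ Lg2 D k1 k2 p) :
    Lg D k1 k2 (pt1 D p) ∧ (¬ T5 D k k2 (pt1 D p) ∨ Lg2 D k1 k2 (pt1 D p)) :=
  Pool.Agent.Helper17.PL.t5_A hD hB hk hk1 h hn

end

end Pool.Agent.Helper23.PL
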