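import Pool.Agent.Helper8.PL.CC
import Pool.Agent.Helper75.PL.CD
import Pool.Agent.Helper49.PL.SP
import Pool.Agent.Helper99.PL.HQ

/-!
# PL: the bounds at one scale (proved by helper8, helper75, helper49, helper99)
-/

set_option autoImplicit false

open Set
open Pool.Agent.Helper83.OP Pool.Agent.Helper93.HH Pool.Agent.Helper95.HH

namespace Pool.Agent.Helper23.PL

/-- **PL-8 (CC).** Pins with large hubs, primary scale. -/
theorem CC : ∃ A : ℕ, ∀ (V P Q : Type) [Finite V] [Finite P] [Finite Q] (D : HD V P Q)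
    (H : SimpleGraph V) (e0 : Sym2 V) (X : Sym2 V → Sym2 V → Prop) (k k1 k2 j : ℕ), D.Ok →
    D.Dr H e0 X → Bad D k k2 → k2 ≤ k → 10 ^ 6 * (k1 + 1) ≤ k →
    (k2 + 1) * {p | Lg D k1 k2 p ∧ ¬ T5 D k k2 p ∧ Nat.log 2 (sg D k2 p) = j}.ncard ≤
      A * ((k2 + 1) * (D.Kh * D.r * 2 ^ j * (UL D k1 j).ncard + D.U.ncard) + (Vb D).ncard) :=
  Pool.Agent.Helper8.PL.CC

/-- **PL-9 (CD).** `T5` pins with large hubs, secondary scale. -/
theorem CD : ∃ A : ℕ, ∀ (V P Q : Type) [Finite V] [Finite P] [Finite Q] (D : HD V P Q)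
    (H : SimpleGraph V) (e0 : Sym2 V) (X : Sym2 V → Sym2 V → Prop) (k k1 k2 j : ℕ), D.Ok →
    D.Dr H e0 X → Bad D k k2 → k2 ≤ k → 10 ^ 6 * (k1 + 1) ≤ k →
    (k2 + 1) * {p | T5 D k k2 p ∧ Lg2 D k1 k2 p ∧ Nat.log 2 (rho D k2 p) = j}.ncard ≤
      A * ((k2 + 1) * (D.Kh * D.r * (k2 + 1) * 2 ^ j * (UL D k1 j).ncard + D.U.ncard) +
        (Vb D).ncard) :=
  Pool.Agent.Helper75.PL.CD

/-- **PL-10 (SP).** Pins with small hubs. -/
theorem SP : ∃ A : ℕ, ∀ (V P Q : Type) [Finite V] [Finite P] [Finite Q] (D : HD V P Q)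
    (k k1 k2 j t : ℕ), D.Ok → Bad D k k2 → k2 ≤ k → 10 ^ t * Nat.card V < 11 ^ t →
    10 ^ 6 * (k1 + 1) * (t + 1) ≤ k →
    (k2 + 1) * {p | ¬ Lg D k1 k2 p ∧ Nat.log 2 (sg D k2 p) = j}.ncard ≤
      A * ((k2 + 1) * (D.U.ncard + {p | Lg D k1 k2 p}.ncard) + (Vb D).ncard) :=
  Pool.Agent.Helper49.PL.SP

/-- **PL-11 (HQ).** Threads between two hubs. -/
theorem HQ : ∃ A : ℕ, ∀ (V P Q : Type) [Finite V] [Finite P] [Finite Q] (D : HD V P Q)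
    (H : SimpleGraph V) (e0 : Sym2 V) (X : Sym2 V → Sym2 V → Prop) (k k1 k2 j t : ℕ), D.Ok →
    GOk D → D.U.Nonempty → D.Dr H e0 X → Bad D k k2 → 10 ^ t * Nat.card V < 11 ^ t →
    10 ^ 6 * (k1 + 1) * (t + 1) ≤ k →
    {q | Nat.log 2 (D.wq q).length = j}.ncard ≤
      A * (2 ^ j * (UL D k1 j).ncard + D.U.ncard) :=
  Pool.Agent.Helper99.PL.HQ

end Pool.Agent.Helper23.PL
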