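import Pool.Agent.Helper23.PL.SpecB
import Pool.Agent.Helper95.HH.RO
import Pool.Agent.Helper83.LN.Defs
import Pool.Agent.Helper83.HR.Ring
import Pool.Agent.Helper52.PL.Lite
import Pool.Agent.Helper52.PL.Move

/-!
# PL: the drawing half (proved by helper52)
-/

set_option autoImplicit false

open Set
open Pool.Agent.Helper83.OP Pool.Agent.Helper83.LN Pool.Agent.Helper83.HR Pool.Agent.Helper93.HH
  Pool.Agent.Helper95.HH

namespace Pool.Agent.Helper23.PL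

/-- **PL-D1 (lite).** Surgery with few moved strands (`S0`) and unit edges. -/
theorem lite : ∃ c : ℕ, ∀ (V T : Type) [Finite V] [Fintype T] (G : SimpleGraph V) (U : Set V)
    (Th : Threads G T) (e : Sym2 V) (M : ℕ) (S0 : Finset T),
    KPl 1 (G.deleteEdges {e}) → 1 ≤ M → (∀ u ∈ U, ∀ v ∈ U, ¬ G.Adj u v) →
    (∀ v, v ∉ U → deg G v ≤ M) → S0.card ≤ M → (∀ τ, τ ∉ S0 → Th.len τ = 1) →
    (∀ τ t, t < Th.len τ → Th.x τ t ∉ U) →
    (∀ τ, τ ∉ S0 → ∀ t < Th.len τ, s(Th.x τ t, Th.x τ (t + 1)) ≠ e) →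
    (∀ ord : V → V → ℕ, IsOrd (G.deleteEdges {e}) U ord →
      ∃ pl : V → V ⊕ Dor (G.deleteEdges {e}) U,
        (∀ v, v ∉ U → ∀ a ∈ U, pl v ≠ Sum.inl a) ∧
        (∀ τ, τ ∉ S0 → pl (Th.x τ 0) = Sum.inl (Th.x τ 0) ∧
          (Th.x τ (Th.len τ) ∉ U → pl (Th.x τ (Th.len τ)) = Sum.inl (Th.x τ (Th.len τ)))) ∧
        (∀ τ ∈ S0, Th.x τ (Th.len τ) ∉ U →
          ∃ p : (ringOut (G.deleteEdges {e}) U ord).Walk (pl (Th.x τ 0)) (pl (Th.x τ (Th.len τ))),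
            p.length ≤ M * Th.len τ) ∧
        ∀ τ ∈ S0, Th.x τ (Th.len τ) ∈ U → ∃ d : Dor (G.deleteEdges {e}) U,
          d.1.2 = Th.x τ (Th.len τ) ∧
          ∃ p : (ringOut (G.deleteEdges {e}) U ord).Walk (pl (Th.x τ 0)) (Sum.inr d),
            p.length ≤ M * Th.len τ) →
    KPl (c * M ^ 2) G := Pool.Agent.Helper52.PL.lite

/-- **PL-D2 (move).** Moving a set `C` of vertices of `N` (not hubs). `e` is an edge at the pin `p0` of a vertex of `C`.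
`f v` is the new place of `v ∈ C`. Threads of `N` between two vertices of `C`; threads of `N` leaving `C` are long; pins
at `C` are long or their hub is near. -/
theorem move : ∃ c : ℕ, ∀ (V P Q : Type) [Finite V] [Finite P] [Finite Q] (D : HD V P Q)
    (p0 : P) (e : Sym2 V) (M : ℕ) (C : Set V), D.Ok → GOk D → e ∈ (D.w p0).edges →
    KPl 1 (D.G.deleteEdges {e}) → 1 ≤ M → D.Kh * D.r ≤ M → C.ncard ≤ M → D.x p0 ∈ C →
    (∀ v ∈ C, v ∈ D.VN ∧ 3 ≤ D.dg v) →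
    (∀ ord : V → V → ℕ, IsOrd (D.G.deleteEdges {e}) D.U ord →
      ∃ f : V → V ⊕ Dor (D.G.deleteEdges {e}) D.U,
        (∀ v ∈ C, ∀ a ∈ D.U, f v ≠ Sum.inl a) ∧
        (∀ u ∈ C, ∀ v ∈ C, ∀ A : D.N.Walk u v, A.IsPath →
          ∃ p : (ringOut (D.G.deleteEdges {e}) D.U ord).Walk (f u) (f v), p.length ≤ M * A.length) ∧
        (∀ u ∈ C, ∀ v, v ∉ C → v ∈ D.VN → 3 ≤ D.dg v → ∀ A : D.N.Walk u v, A.IsPath →
          (∀ z ∈ A.support, z ≠ u → z ≠ v → D.dg z = 2) →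
          ∃ p : (ringOut (D.G.deleteEdges {e}) D.U ord).Walk (f u) (Sum.inl v),
            p.length ≤ M * A.length) ∧
        ∀ q, D.x q ∈ C → ∃ d : Dor (D.G.deleteEdges {e}) D.U, d.1.2 = D.hub q ∧
          ∃ p : (ringOut (D.G.deleteEdges {e}) D.U ord).Walk (f (D.x q)) (Sum.inr d),
            p.length ≤ M * (D.w q).length) →
    KPl (c * M ^ 6) D.G := Pool.Agent.Helper52.PL.move

end Pool.Agent.Helper23.PL
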