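import Pool.Agent.Helper23.PL.SpecD
import Pool.Agent.Helper62.PL.P2
import Pool.Agent.Helper66.PL.P3
import Pool.Agent.Helper11.PL.D5
import Pool.Agent.Helper32.PL.Cyc

/-!
# PL: the facts given by the drawings (proved by helper62, helper66, helper11, helper32)
-/

set_option autoImplicit false

open Set
open Pool.Agent.Helper83.OP Pool.Agent.Helper93.HH Pool.Agent.Helper95.HH

namespace Pool.Agent.Helper23.PL

/-- **PL-D3 (p2).** -/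
theorem draw_p2 : ∃ c : ℕ, ∀ (V P Q : Type) [Finite V] [Finite P] [Finite Q] (D : HD V P Q)
    (k k2 : ℕ), D.Ok → GOk D → 1 ≤ k → 1 ≤ k2 →
    (∀ e ∈ D.G.edgeSet, KPl 1 (D.G.deleteEdges {e})) →
    ∀ p ρ, 1 ≤ ρ → bv D (D.ball ρ (D.x p)) ≤ k2 → (∀ q, Pn D ρ (D.x p) q → D.hub q = D.hub p) →
    Byp D (Fp D p) (k * ρ) (D.x p) (D.hub p) → KPl (c * (D.Kh * D.r * k * k2) ^ c) D.G := Pool.Agent.Helper62.PL.draw_p2

/-- **PL-D4 (p3).** -/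
theorem draw_p3 : ∃ c : ℕ, ∀ (V P Q : Type) [Finite V] [Finite P] [Finite Q] (D : HD V P Q)
    (k k2 : ℕ), D.Ok → GOk D → 1 ≤ k → 1 ≤ k2 →
    (∀ e ∈ D.G.edgeSet, KPl 1 (D.G.deleteEdges {e})) →
    ∀ p b ρ, 1 ≤ ρ → b ∈ D.U → b ≠ D.hub p → bv D (D.ball ρ (D.x p)) ≤ k2 →
    (∀ q, Pn D ρ (D.x p) q → D.hub q = D.hub p ∨ D.hub q = b) →
    ∀ y z (W : D.G.Walk y z), Nb D (Fp D p) (D.hub p) y → Nb D (Fp D p) b z →
      (∀ f ∈ W.edges, f ∉ Fp D p) → cw D W ≤ k * ρ →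
      (∀ q t, D.hub q = b → Nr D.N t (D.x p) (D.x q) →
        cw D W ≤ k * ((D.w p).length + t + (D.w q).length)) →
      ∀ v ∈ W.support, Rch D (Fp D p) (k * ρ) (D.x p) v →
    KPl (c * (D.Kh * D.r * k * k2) ^ c) D.G := Pool.Agent.Helper66.PL.draw_p3_of_move move

/-- **PL-D5 (p1, q1).** -/
theorem draw_p1 : ∃ c : ℕ, ∀ (V P Q : Type) [Finite V] [Finite P] [Finite Q] (D : HD V P Q)
    (k : ℕ), D.Ok → GOk D → 1 ≤ k →
    (∀ e ∈ D.G.edgeSet, KPl 1 (D.G.deleteEdges {e})) →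
    ∀ p, Byp D (Fp D p) (k * (D.w p).length) (D.x p) (D.hub p) →
    KPl (c * (D.Kh * D.r * k) ^ c) D.G := Pool.Agent.Helper11.PL.draw_p1

theorem draw_q1 : ∃ c : ℕ, ∀ (V P Q : Type) [Finite V] [Finite P] [Finite Q] (D : HD V P Q)
    (k : ℕ), D.Ok → GOk D → 1 ≤ k →
    (∀ e ∈ D.G.edgeSet, KPl 1 (D.G.deleteEdges {e})) →
    ∀ q y z, Nb D (Fq D q) (D.ha q) y → Nb D (Fq D q) (D.hb q) z →
    Rch D (Fq D q) (k * (D.wq q).length) y z →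
    KPl (c * (D.Kh * D.r * k) ^ c) D.G := Pool.Agent.Helper11.PL.draw_q1

/-- **PL-D6 (cyc).** -/
theorem draw_cyc : ∃ c : ℕ, ∀ (V P Q : Type) [Finite V] [Finite P] [Finite Q] (D : HD V P Q)
    (k : ℕ), D.Ok → GOk D → 1 ≤ k →
    (∀ e ∈ D.G.edgeSet, KPl 1 (D.G.deleteEdges {e})) →
    ∀ v (Z : D.N.Walk v v), Z.IsCycle → {z | z ∈ Z.support ∧ 3 ≤ D.dg z}.ncard ≤ k →
    KPl (c * (D.Kh * D.r * k) ^ c) D.G := Pool.Agent.Helper32.PL.draw_cyc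

end Pool.Agent.Helper23.PL
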